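import Mathlib
import Pool.Agent.Zk55.EX.Exc

/-!
# The area of the exponential maps that may carry invariant line fields

For `κ ∈ ℂ` let `E κ z = exp z + κ`. The parameter `κ` is called exceptional if `E κ` has no
attracting cycle, or if its Julia set has positive area or carries an invariant line field.
The exceptional parameters in the closed unit disc about `κ₀` have area at most `C x exp (-x)`,
`x = Re κ₀ ≥ 1`.
-/

set_option autoImplicit false

open Set Filter Topology Metric MeasureTheory

namespace Pool.Agent.Results.MP_70a088_an.ExponentialArea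

open Pool.Agent.Zk55.EX

/-- The exceptional parameters of the exponential family have exponentially small density far to the
right. -/
theorem result : ∃ C : ℝ, ∀ κ₀ : ℂ, 1 ≤ κ₀.re →
    volume (exceptional ∩ closedBall κ₀ 1) ≤ ENNReal.ofReal (C * (κ₀.re * Real.exp (-κ₀.re))) := by
  refine ⟨20000 * Real.exp 20 * (Real.pi * 400) + Real.pi * Real.exp 40, ?_⟩
  intro κ₀ hκ
  have hpi := Real.pi_pos
  have he20 := Real.exp_pos 20
  have he40 := Real.exp_pos 40
  rcases lt_or_ge κ₀.re 40 with h | h
  · -- trivial bound
    refine (measure_mono (inter_subset_right)).trans ?_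
    rw [vol_cb _ zero_le_one]
    apply ENNReal.ofReal_le_ofReal
    have h1 : 1 ≤ Real.exp 40 * Real.exp (-κ₀.re) := by
      rw [← Real.exp_add]
      apply Real.one_le_exp
      linarith
    have h2 : 0 < Real.exp (-κ₀.re) := Real.exp_pos _
    have h3 : 0 ≤ 20000 * Real.exp 20 * (Real.pi * 400) * (κ₀.re * Real.exp (-κ₀.re)) := by positivity
    calc Real.pi * 1 ^ 2 = Real.pi * 1 * 1 := by ring
      _ ≤ Real.pi * (Real.exp 40 * Real.exp (-κ₀.re)) * κ₀.re := by gcongr
      _ ≤ _ := by nlinarith
  · have hB : Base 0 1 κ₀ 10 (κ₀.re - 20) := by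
      have hre : ∀ κ ∈ ball κ₀ (2 * 10), κ₀.re - 20 ≤ κ.re := by
        intro κ hκ
        rw [mem_ball, dist_eq_norm] at hκ
        have h5 := Complex.abs_re_le_norm (κ - κ₀)
        rw [Complex.sub_re] at h5
        have h6 := (abs_le.mp h5).1
        linarith
      constructor
      · norm_num
      · simp
      · simp
      · intro κ _
        rw [deriv_xi_zero, sub_self, norm_zero]
        positivity
      · intro κ _
        simp only [Finset.range_zero, Finset.sum_empty]
        have := DD_pos 0 κ
        positivity
      · intro κ hκ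
        rw [LL_zero, xi_zero]
        have := hre κ hκ
        linarith
      · intro κ hκ
        rw [xi_zero]
        exact hre κ hκ
      · linarith
    have h1 := hB.main
    rw [vol_b _ (by norm_num), ← ENNReal.ofReal_mul (by
      have : 0 ≤ κ₀.re - 20 := by linarith
      positivity)] at h1
    refine (measure_mono ?_).trans (h1.trans (ENNReal.ofReal_le_ofReal ?_))
    · refine (sub).trans ?_
      rintro κ ⟨h2, h3⟩
      exact ⟨closedBall_subset_ball (by norm_num) h2, h3⟩
    · have e1 : Real.exp (-(κ₀.re - 20)) = Real.exp 20 * Real.exp (-κ₀.re) := by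
        rw [← Real.exp_add]; ring_nf
      rw [e1]
      have h2 : 0 < Real.exp (-κ₀.re) := Real.exp_pos _
      have h3 : 0 ≤ Real.pi * Real.exp 40 * (κ₀.re * Real.exp (-κ₀.re)) := by positivity
      calc 20000 * ((κ₀.re - 20) * (Real.exp 20 * Real.exp (-κ₀.re))) * (Real.pi * (2 * 10) ^ 2) =
          20000 * Real.exp 20 * (Real.pi * 400) * ((κ₀.re - 20) * Real.exp (-κ₀.re)) := by ring
        _ ≤ 20000 * Real.exp 20 * (Real.pi * 400) * (κ₀.re * Real.exp (-κ₀.re)) := by
          gcongr
          linarith
        _ ≤ _ := by nlinarith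

end Pool.Agent.Results.MP_70a088_an.ExponentialArea
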