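import Mathlib
import Pool.Agent.Zk55.EX.Local3
import Pool.Agent.Zk55.EX.Exc

/-!
# Invariant line fields in the exponential family near escaping parameters

For `κ ∈ ℂ` let `E κ z = exp z + κ`. The parameter `κ` is called exceptional if `E κ` has no
attracting cycle, or if its Julia set has positive area or carries an invariant line field.

Let `κ₀` be a parameter whose singular orbit `ξ n = (E κ₀)^n (κ₀)` tends to infinity inside a
sector `|ξ| ≤ C Re ξ` about the positive real axis, such that the derivatives of `κ ↦ (E κ)^n (κ)`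
at `κ₀` do not eventually drop below `1`. Then for every `ε > 0` the exceptional parameters in the
disc of radius `r` about `κ₀` have area at most `exp (-r ^ (-(1 - ε)))` for all small `r`.
In particular, this holds at every real `κ₀ > -1`.

Method. The maps `κ ↦ (E κ)^n (κ)` are nearly affine on small discs along which the singular orbit
runs far to the right. The next image of such a disc wraps around the plane; a point that falls
far to the left of the imaginary axis gives a cyclic chain of discs that traps the singular value,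
a point that falls far to the right continues the induction, and the area of the remaining
parameters is estimated by a covering argument; the parameters for which the procedure never stops
form a porous set. If there is a trapping chain, then the complement of its basin is a null set:
it is porous by Koebe's theorem, since the derivatives of the iterates tend to infinity on it.
-/

set_option autoImplicit false

open Set Filter Topology Metric MeasureTheory

namespace Pool.Agent.Results.MP_70a088_an.ExponentialMaps

open Pool.Agent.Zk55.EX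

theorem real_esc {x : ℝ} (hx : -1 < x) : Esc (x : ℂ) 1 := by
  -- the orbit is real
  have h1 : ∀ n : ℕ, ∃ t : ℝ, xi n (x : ℂ) = t ∧ x + n * (1 + x) ≤ t := by
    intro n
    induction n with
    | zero => exact ⟨x, xi_zero _, by simp⟩
    | succ n ih =>
      obtain ⟨t, ht, hxt⟩ := ih
      refine ⟨Real.exp t + x, ?_, ?_⟩
      · rw [xi_succ, ht]; push_cast; rfl
      · have := Real.add_one_le_exp t
        push_cast
        linarith
  have h2 : ∀ n : ℕ, ∃ d : ℝ, deriv (xi n) (x : ℂ) = d ∧ 1 ≤ d := by
    intro n
    induction n with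
    | zero => exact ⟨1, by rw [deriv_xi_zero]; simp, le_rfl⟩
    | succ n ih =>
      obtain ⟨d, hd, hd1⟩ := ih
      obtain ⟨t, ht, -⟩ := h1 n
      refine ⟨Real.exp t * d + 1, ?_, ?_⟩
      · rw [deriv_xi_succ, hd, ht]; push_cast; rfl
      · have := Real.exp_pos t
        nlinarith
  have h3 : Tendsto (fun n : ℕ => (xi n (x : ℂ)).re) atTop atTop := by
    have h4 : Tendsto (fun n : ℕ => x + n * (1 + x)) atTop atTop :=
      tendsto_atTop_add_const_left _ _ (tendsto_natCast_atTop_atTop.atTop_mul_const (by linarith))
    refine tendsto_atTop_mono (fun n => ?_) h4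
    obtain ⟨t, ht, hxt⟩ := h1 n
    rw [ht, Complex.ofReal_re]
    exact hxt
  refine ⟨one_pos, le_rfl, h3, ?_, ?_⟩
  · filter_upwards [h3.eventually (eventually_ge_atTop 0)] with n hn
    obtain ⟨t, ht, hxt⟩ := h1 n
    rw [ht, Complex.ofReal_re] at hn
    rw [ht, Complex.ofReal_re, Complex.norm_real, Real.norm_of_nonneg hn, one_mul]
  · refine Frequently.of_forall fun n => ?_
    obtain ⟨d, hd, hd1⟩ := h2 n
    rw [hd, Complex.norm_real, Real.norm_of_nonneg (by linarith)]
    exact hd1

/-- Invariant line fields, Julia sets of positive area, and the absence of attracting cycles are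
rare in the exponential family near the parameters with escaping singular value. -/
theorem result :
    (∀ κ₀ : ℂ, Tendsto (fun n => ((E κ₀)^[n] κ₀).re) atTop atTop →
      (∃ c > 0, ∀ᶠ n in atTop, c * ‖(E κ₀)^[n] κ₀‖ ≤ ((E κ₀)^[n] κ₀).re) →
      (∃ᶠ n in atTop, 1 ≤ ‖deriv (fun κ => (E κ)^[n] κ) κ₀‖) →
      ∀ ε : ℝ, 0 < ε → ε < 1 → ∀ᶠ r in 𝓝[>] (0 : ℝ),
        volume (exceptional ∩ ball κ₀ r) ≤ ENNReal.ofReal (Real.exp (-(r ^ (-(1 - ε)))))) ∧
    -- in particular near every real parameter greater than `-1`
    (∀ x : ℝ, -1 < x → ∀ ε : ℝ, 0 < ε → ε < 1 → ∀ᶠ r in 𝓝[>] (0 : ℝ),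
      volume (exceptional ∩ ball (x : ℂ) r) ≤ ENNReal.ofReal (Real.exp (-(r ^ (-(1 - ε)))))) := by
  have key : ∀ (κ₀ : ℂ) (c : ℝ), Esc κ₀ c → ∀ ε : ℝ, 0 < ε → ε < 1 → ∀ᶠ r in 𝓝[>] (0 : ℝ),
      volume (exceptional ∩ ball κ₀ r) ≤ ENNReal.ofReal (Real.exp (-(r ^ (-(1 - ε))))) := by
    intro κ₀ c h ε hε hε1
    filter_upwards [h.final hε hε1] with r hr
    exact (measure_mono sub).trans hr
  refine ⟨?_, fun x hx => key x 1 (real_esc hx)⟩
  rintro κ₀ h1 ⟨c, hc, h2⟩ h3
  refine key κ₀ (min c 1) ⟨lt_min hc one_pos, min_le_right _ _, h1, ?_, h3⟩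
  filter_upwards [h2] with n hn
  exact (mul_le_mul_of_nonneg_right (min_le_left _ _) (norm_nonneg _)).trans hn

end Pool.Agent.Results.MP_70a088_an.ExponentialMaps
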