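import Mathlib
import Pool.Prelude.Def_F_c31e40fa
import Pool.Agent.Zk29.Rat.Dim3

/-!
# The number of independent invariant line fields of a polynomial

Let `f` be a polynomial of degree `d ≥ 2` (with any number of critical points of any order; the Julia
set may be disconnected, `f` may be infinitely renormalizable or have irrationally indifferent
cycles). Call a set `G` of critical values in the filled Julia set `K(f)` good if there are
arbitrarily good scales at which the derivatives along the orbits of its points beat the previous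
returns to `G` and the escape times of some nearby points; only finitely many iterates enter at every
scale, and the sums of the inverse derivatives may diverge. Then `f` has at most `N - |G|` linearly
independent invariant Beltrami differentials on the Julia set, where `N` is the number of the
critical values in `K(f)`: the escaping critical values never count. If all the critical values in
`K(f)` are good, then `f` has no invariant line field on its Julia set.

Method. The quadratic differentials with simple poles along the critical orbits up to a finite time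
are almost fixed by the push-forward operator. A lower bound for the mass which such a differential
loses in the nested domains `{|f^k| < R}`, `k ≤ M` (by interpolation at holes of these domains near
a good critical value), shows that the functionals defined by the good critical values and by the
escaping ones on the space of the infinitesimal deformations are independent, quantitatively; they
almost vanish on the deformations given by invariant line fields.
-/

set_option autoImplicit false

open MeasureTheory Filter Metric Topology Polynomial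

namespace Pool.Agent.Results.MP_70a088_an.FewLineFields

/-- The polynomial as a self-map of the plane. -/
def map (T : ℂ[X]) : ℂ → ℂ := fun z : ℂ => T.eval z

/-- The filled Julia set: the points whose orbits do not tend to infinity. -/
def filled (T : ℂ[X]) : Set ℂ :=
  {z : ℂ | ¬ Tendsto (fun k : ℕ => ‖(map T)^[k] z‖) atTop atTop}

/-- The Julia set. -/
def julia (T : ℂ[X]) : Set ℂ := frontier (filled T)

/-- `μ` is an invariant line field supported on the Julia set of `T`; it is of absolute value one on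
the set `S` of positive measure, and vanishes off `S`. -/
structure LineField (T : ℂ[X]) (μ : ℂ → ℂ) (S : Set ℂ) : Prop where
  meas : Measurable μ
  one : ∀ z ∈ S, ‖μ z‖ = 1
  off : ∀ z, z ∉ S → μ z = 0
  pos : 0 < volume S
  sub : S ⊆ julia T
  inv : ∀ᵐ z : ℂ, μ (map T z) * (starRingEnd ℂ (deriv (map T) z) / deriv (map T) z) = μ z

/-- `T` has an invariant line field supported on its Julia set. -/
def HasLineField (T : ℂ[X]) : Prop := ∃ (μ : ℂ → ℂ) (S : Set ℂ), LineField T μ S

/-- `μ` is a bounded measurable invariant Beltrami differential which vanishes off the Julia set. -/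
structure Invariant (T : ℂ[X]) (μ : ℂ → ℂ) : Prop where
  meas : Measurable μ
  bdd : ∃ C : ℝ, ∀ z, ‖μ z‖ ≤ C
  off : ∀ z, z ∉ julia T → μ z = 0
  inv : ∀ᵐ z : ℂ, μ (map T z) * (starRingEnd ℂ (deriv (map T) z) / deriv (map T) z) = μ z

/-- The critical values in the filled Julia set. -/
def values (T : ℂ[X]) : Set ℂ := {v : ℂ | v ∈ filled T ∧ ∃ c, deriv (map T) c = 0 ∧ map T c = v}

/-- The logarithmic weight of the orbits of the points `v` of `G` up to the times `J v`. -/
noncomputable def weight (T : ℂ[X]) (G : Finset ℂ) (J : ℂ → ℕ) : ℝ :=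
  1 + Real.log (∑ v ∈ G, ∑ j ∈ Finset.range (J v), ‖deriv ((map T)^[j]) v‖⁻¹)

/-- The set `G` of critical values is good. For every `ε > 0` there are times `J v ≥ 1`, points `y v`,
and `M ≥ 1`, `0 < δ ≤ 1`, such that, with the weight `W`: the distance of `f^j(v)`, `j < J v`, to
every `u` in `G` (other than `u = v` if `j = 0`) is at least `δ`; the point `y v` is at distance at
most `δ / (B W ^ B)` from `v` and `|f^M(y v)| ≥ R`; and `W ^ B M ^ 2 ≤ ε δ |(f^{J v})'(v)|`. -/
def Good (T : ℂ[X]) (R B : ℝ) (G : Finset ℂ) : Prop :=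
  ∀ ε : ℝ, 0 < ε → ∃ (J : ℂ → ℕ) (y : ℂ → ℂ) (M : ℕ) (δ : ℝ), 1 ≤ M ∧ 0 < δ ∧ δ ≤ 1 ∧
    (∀ v ∈ G, 1 ≤ J v) ∧
    (∀ v ∈ G, ∀ u ∈ G, ∀ j < J v, (v ≠ u ∨ j ≠ 0) → δ ≤ ‖(map T)^[j] v - u‖) ∧
    (∀ v ∈ G, R ≤ ‖(map T)^[M] (y v)‖ ∧ B * weight T G J ^ B * ‖y v - v‖ ≤ δ) ∧
    ∀ v ∈ G, weight T G J ^ B * (M : ℝ) ^ 2 ≤ ε * δ * ‖deriv ((map T)^[J v]) v‖

open Pool.Agent.Zk29.Rat

theorem filled_eq {T : ℂ[X]} {R : ℝ} (hE : Esc T R) : filled T = KR T 1 (ball 0 R) :=
  (KR_filled hE).symm

theorem weight_one (T : ℂ[X]) (G : Finset ℂ) (J : ℂ → ℕ) (hJ : ∀ v ∈ G, 1 ≤ J v) :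
    1 ≤ weight T G J ∧ ∑ v ∈ G, ∑ j ∈ Finset.range (J v), ‖deriv ((map T)^[j]) v‖⁻¹ ≤
      Real.exp (weight T G J) := by
  unfold weight
  obtain ⟨S, hS⟩ : ∃ S, S = ∑ v ∈ G, ∑ j ∈ Finset.range (J v), ‖deriv ((map T)^[j]) v‖⁻¹ :=
    ⟨_, rfl⟩
  rw [← hS]
  rcases G.eq_empty_or_nonempty with h0 | ⟨v, hv⟩
  · rw [h0, Finset.sum_empty] at hS
    rw [hS, Real.log_zero, add_zero]
    exact ⟨le_rfl, (Real.exp_pos _).le⟩
  · have h1 : 1 ≤ S := by
      have h2 : ‖deriv ((map T)^[0]) v‖⁻¹ = 1 := by
        rw [Function.iterate_zero, deriv_id, norm_one, inv_one]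
      have h3 : ‖deriv ((map T)^[0]) v‖⁻¹ ≤
          ∑ j ∈ Finset.range (J v), ‖deriv ((map T)^[j]) v‖⁻¹ :=
        Finset.single_le_sum (f := fun j => ‖deriv ((map T)^[j]) v‖⁻¹)
          (fun _ _ => inv_nonneg.2 (norm_nonneg _)) (Finset.mem_range.2 (hJ v hv))
      have h4 : ∑ j ∈ Finset.range (J v), ‖deriv ((map T)^[j]) v‖⁻¹ ≤ S := by
        rw [hS]
        exact Finset.single_le_sum (f := fun v => ∑ j ∈ Finset.range (J v),
          ‖deriv ((map T)^[j]) v‖⁻¹)
          (fun _ _ => Finset.sum_nonneg fun _ _ => inv_nonneg.2 (norm_nonneg _)) hv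
      linarith
    have h2 := Real.log_nonneg h1
    refine ⟨by linarith, ?_⟩
    rw [Real.exp_add, Real.exp_log (by linarith)]
    have h3 : 1 ≤ Real.exp 1 := Real.one_le_exp zero_le_one
    nlinarith

/-- **The number of independent invariant line fields of a polynomial.** -/
theorem result (T : ℂ[X]) (hT : 2 ≤ T.natDegree) :
    (values T).Finite ∧ ∃ R B : ℝ, 0 < R ∧ 1 ≤ B ∧
      ∀ G : Finset ℂ, (∀ v ∈ G, v ∈ values T) → Good T R B G →
        (∀ (n : ℕ) (μ : Fin n → ℂ → ℂ), (∀ l, Invariant T (μ l)) →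
          (values T).ncard < G.card + n →
            ∃ y : Fin n → ℂ, y ≠ 0 ∧ ∀ᵐ z : ℂ, ∑ l, y l * μ l z = 0) ∧
        ((values T).ncard = G.card → ¬ HasLineField T) := by
  classical
  have hP1 : 1 ≤ T.natDegree := by omega
  obtain ⟨R, hE'⟩ := exists_esc hT
  have hE := hE' R le_rfl
  have hR := hE.one
  have hTr := hE.trap
  have hmap : map T = fun w : ℂ => T.eval w := rfl
  have hcd : ∀ c, deriv (map T) c = (derivative T).eval c := fun c => by
    rw [hmap, T.deriv]
  have hval : ∀ v, v ∈ values T ↔ v ∈ cvs T ∧ v ∈ KR T 1 (ball 0 R) := by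
    intro v
    rw [← filled_eq hE, mem_cvs hP1]
    constructor
    · rintro ⟨h1, c, h2, h3⟩
      exact ⟨⟨c, by rw [← hcd]; exact h2, h3⟩, h1⟩
    · rintro ⟨⟨c, h2, h3⟩, h1⟩
      exact ⟨h1, c, by rw [hcd]; exact h2, h3⟩
  have hfin : (values T).Finite := (cvs T).finite_toSet.subset fun v hv => ((hval v).1 hv).1
  refine ⟨hfin, ?_⟩
  have hpt : ∀ G : Finset ℂ, ∃ B : ℝ, 1 ≤ B ∧ ((∀ v ∈ G, v ∈ values T) → ∀ B', B ≤ B' →
      Good T R B' G → ∀ (n : ℕ) (μ : Fin n → ℂ → ℂ), (∀ l, Invariant T (μ l)) →
          (values T).ncard < G.card + n →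
            ∃ y : Fin n → ℂ, y ≠ 0 ∧ ∀ᵐ z : ℂ, ∑ l, y l * μ l z = 0) := by
    intro G
    by_cases hG : ∀ v ∈ G, v ∈ values T
    swap
    · exact ⟨1, le_rfl, fun h => absurd h hG⟩
    have h1 : ∀ i : Fin G.card, ∃ c, (derivative T).eval c = 0 ∧
        T.eval c = (G.equivFin.symm i : ℂ) := fun i =>
      (mem_cvs hP1).1 ((hval _).1 (hG _ (G.equivFin.symm i).2)).1
    choose c hc hcv using h1
    have hcG : ∀ i, T.eval (c i) ∈ G := fun i => by rw [hcv]; exact (G.equivFin.symm i).2
    obtain ⟨B, hB1, hB⟩ := dim_bound hT rfl hE c hc fun i => ((hval _).1 (hG _ (hcG i))).2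
    refine ⟨B, hB1, fun _ B' hBB hgood n μ hμ hcard => ?_⟩
    have hga : ∀ ε : ℝ, 0 < ε → GoodAt T R B ε (fun i => T.eval (c i)) := by
      intro ε hε
      obtain ⟨J, y, M, δ, hM, hδ, hδ1, hJ, hsep, hy, hsm⟩ := hgood ε hε
      obtain ⟨hw1, hw2⟩ := weight_one T G J hJ
      obtain ⟨W, hW⟩ : ∃ W, W = weight T G J := ⟨_, rfl⟩
      rw [← hW] at hy hsm hw1 hw2
      have hWB : W ^ B ≤ W ^ B' := Real.rpow_le_rpow_of_exponent_le hw1 hBB
      have hW0 : 0 < W := by linarith
      have hWB0 : 0 < W ^ B := Real.rpow_pos_of_pos hW0 _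
      have hWB0' : 0 < W ^ B' := Real.rpow_pos_of_pos hW0 _
      have hB'0 : 0 ≤ B' := by linarith
      have hBW0 : 0 ≤ B' * W ^ B' := by positivity
      refine ⟨fun i => J (T.eval (c i)), M, δ, W, fun i => hJ _ (hcG i), hM, hδ, hδ1, hw1, ?_, ?_,
        ?_, ?_⟩
      · refine le_trans (le_of_eq ?_) hw2
        have h2 : ∑ v ∈ G, ∑ j ∈ Finset.range (J v), ‖deriv ((map T)^[j]) v‖⁻¹ =
            ∑ v : G, ∑ j ∈ Finset.range (J v), ‖deriv ((map T)^[j]) (v : ℂ)‖⁻¹ := by
          rw [← Finset.sum_coe_sort G]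
        rw [h2]
        refine Fintype.sum_equiv G.equivFin.symm _ _ fun i => ?_
        beta_reduce
        rw [hcv]
        refine Finset.sum_congr rfl fun j _ => ?_
        unfold dl
        rw [norm_inv]
        rfl
      · intro i k j hj hij
        refine hsep _ (hcG i) _ (hcG k) j hj ?_
        rcases hij with h2 | h2
        · left
          rw [hcv, hcv]
          intro h3
          exact h2 (G.equivFin.symm.injective (Subtype.ext h3))
        · exact Or.inr h2
      · intro k
        obtain ⟨h2, h3⟩ := hy _ (hcG k)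
        refine le_trans ?_ h3
        have h4 : dg (UR T 1 (ball 0 R)) (T.eval (c k)) M ≤ ‖y (T.eval (c k)) - T.eval (c k)‖ := by
          refine dg_le ?_
          rw [mem_UR]
          exact not_lt.2 h2
        have h5 : 0 ≤ dg (UR T 1 (ball 0 R)) (T.eval (c k)) M := infDist_nonneg
        gcongr
      · intro i
        refine le_trans ?_ (hsm _ (hcG i))
        gcongr
    obtain ⟨y, hy0, hy⟩ := hB hga n hfin.toFinset (fun v h2 h3 => by
      rw [Set.Finite.mem_toFinset]
      exact (hval v).2 ⟨h2, h3⟩) (by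
      rwa [← Set.ncard_eq_toFinset_card _ hfin]) μ (fun l => by
      have h2 := hμ l
      refine ⟨⟨h2.meas, h2.bdd, ?_⟩, ?_⟩
      · rw [rf_one_fun]
        exact h2.inv
      · intro z hz
        apply h2.off
        intro hzJ
        apply hz
        rw [← filled_eq hE]
        have h3 : IsClosed (filled T) := by
          rw [filled_eq hE]
          exact hTr.kcpt.isClosed
        exact h3.frontier_subset hzJ)
    refine ⟨y, hy0, ?_⟩
    have hbel : ∀ l, Bel (μ l) (KR T 1 (ball 0 R)) := by
      intro l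
      have h2 := hμ l
      obtain ⟨Cb, hCb⟩ := h2.bdd
      refine ⟨hTr.kcpt, h2.meas, ⟨Cb, (norm_nonneg _).trans (hCb 0), hCb⟩, fun z hz => ?_⟩
      apply h2.off
      intro hzJ
      apply hz
      rw [← filled_eq hE]
      have h3 : IsClosed (filled T) := by
        rw [filled_eq hE]
        exact hTr.kcpt.isClosed
      exact h3.frontier_subset hzJ
    refine rigid hP1 hE (μ := fun w => ∑ l, y l * μ l w) ?_ ?_ hy
    · refine ⟨hTr.kcpt, ?_, ?_, ?_⟩
      · exact Finset.measurable_fun_sum _ fun l _ => (hbel l).meas.const_mul _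
      · choose Cb hCb0 hCb using fun l => (hbel l).bdd
        refine ⟨∑ l, ‖y l‖ * Cb l, Finset.sum_nonneg fun l _ =>
          mul_nonneg (norm_nonneg _) (hCb0 l), fun z => ?_⟩
        refine (norm_sum_le _ _).trans (Finset.sum_le_sum fun l _ => ?_)
        rw [norm_mul]
        have := hCb l z
        gcongr
      · intro z hz
        refine Finset.sum_eq_zero fun l _ => ?_
        rw [(hbel l).off z hz, mul_zero]
    · intro z hz
      refine Finset.sum_eq_zero fun l _ => ?_
      rw [(hμ l).off z, mul_zero]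
      intro hzJ
      rw [julia, filled_eq hE] at hzJ
      exact hzJ.2 hz
  choose Bf hBf1 hBf using hpt
  obtain ⟨B, hB⟩ : ∃ B, B = ∑ G ∈ (cvs T).powerset, Bf G := ⟨_, rfl⟩
  have hBle : ∀ G ∈ (cvs T).powerset, Bf G ≤ B := by
    intro G hG
    rw [hB]
    exact Finset.single_le_sum (f := Bf) (fun G _ => by linarith [hBf1 G]) hG
  refine ⟨R, B, by linarith, (hBf1 ∅).trans (hBle ∅ (Finset.empty_mem_powerset _)), ?_⟩
  intro G hG hgood
  have hGc : G ∈ (cvs T).powerset := by
    rw [Finset.mem_powerset]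
    exact fun v hv => ((hval v).1 (hG v hv)).1
  have hmain := hBf G hG B (hBle G hGc) hgood
  refine ⟨hmain, ?_⟩
  rintro hcard ⟨μ, S, hLF⟩
  obtain ⟨y, hy0, hy⟩ := hmain 1 (fun _ => μ) (fun _ => ⟨hLF.meas, ⟨1, fun z => by
    by_cases hz : z ∈ S
    · exact (hLF.one z hz).le
    · rw [hLF.off z hz, norm_zero]
      exact zero_le_one⟩, fun z hz => hLF.off z fun hzS => hz (hLF.sub hzS), hLF.inv⟩) (by omega)
  have hy1 : y 0 ≠ 0 := by
    intro h0
    apply hy0
    ext l
    rw [Fin.eq_zero l]
    exact h0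
  have h1 : ∀ᵐ z : ℂ, z ∉ S := by
    filter_upwards [hy] with z hz hzS
    rw [Fin.sum_univ_one] at hz
    have h2 := (mul_eq_zero.1 hz).resolve_left hy1
    have h3 := hLF.one z hzS
    rw [h2, norm_zero] at h3
    exact zero_ne_one h3
  rw [ae_iff] at h1
  simp only [not_not] at h1
  exact hLF.pos.ne' h1

end Pool.Agent.Results.MP_70a088_an.FewLineFields
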