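import Mathlib
import Pool.Prelude.Def_F_c31e40fa
import Pool.Agent.Zk29.Nl.N8

/-!
# Invariant line fields of polynomials with one critical value in the filled Julia set

Let `f` be a polynomial of degree `d ≥ 2` which has exactly one critical value `v` in the filled Julia
set `K(f)`: all the other critical values escape (there may be none of them; `v` may be the value of
several critical points, of any orders; `f` may be infinitely renormalizable or have Cremer or Siegel
cycles). If `f` has an invariant line field on its Julia set, then the orbit of `v` neither expands nor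
recurs faster than quasi-polynomially:

(1) `|(f^n)'(v)| ≤ exp (K log² n)` for all `n ≥ 2`;

(2) if `v` is in the Julia set (the only other case is the trivial hyperbolic one), the distance of
`f^n(v)` to the critical points is at least `exp (-K log² n)` for all `n ≥ 2`.

So `f` has no invariant line field if the upper Lyapunov exponent of `v` is positive, or if only, for
every `C`, `|(f^n)'(v)| ≥ exp (C log² n)` or (for `v` in the Julia set) the distance of `f^n(v)` to
the critical points is at most `exp (-C log² n)`, for arbitrarily large `n`.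

Method. An invariant line field gives an infinitesimal deformation of `f`. It almost annihilates the
functionals given by the quadratic differentials with simple poles along the orbit of `v` up to the
time `J` of a close return; so the masses which these differentials lose in the domains
`{|f^M| < R}` bound the derivative of `f^J` at `v` in terms of `log` of the sum of the inverse
derivatives, of `M`, and of the distance of the return to `v` and the previous one. The Cauchy
estimate gives `M`. A large derivative then produces a close return at a smaller time, and halving the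
time again and again gives a contradiction, or an attracting cycle.
-/

set_option autoImplicit false

open MeasureTheory Filter Metric Topology Polynomial

namespace Pool.Agent.Results.MP_70a088_an.OneCriticalValue

/-- The polynomial as a self-map of the plane. -/
def map (T : ℂ[X]) : ℂ → ℂ := fun z : ℂ => T.eval z

/-- The filled Julia set: the points whose orbits do not tend to infinity. -/
def filled (T : ℂ[X]) : Set ℂ :=
  {z : ℂ | ¬ Tendsto (fun k : ℕ => ‖(map T)^[k] z‖) atTop atTop}

/-- The Julia set. -/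
def julia (T : ℂ[X]) : Set ℂ := frontier (filled T)

/-- `μ` is an invariant line field supported on the Julia set of `T`; it is of absolute value one on
the set `S` of positive measure, and vanishes off `S`. -/
structure LineField (T : ℂ[X]) (μ : ℂ → ℂ) (S : Set ℂ) : Prop where
  meas : Measurable μ
  one : ∀ z ∈ S, ‖μ z‖ = 1
  off : ∀ z, z ∉ S → μ z = 0
  pos : 0 < volume S
  sub : S ⊆ julia T
  inv : ∀ᵐ z : ℂ, μ (map T z) * (starRingEnd ℂ (deriv (map T) z) / deriv (map T) z) = μ z

/-- `T` has an invariant line field supported on its Julia set. -/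
def HasLineField (T : ℂ[X]) : Prop := ∃ (μ : ℂ → ℂ) (S : Set ℂ), LineField T μ S

/-- The critical points. -/
def crit (T : ℂ[X]) : Set ℂ := {c : ℂ | deriv (map T) c = 0}

/-- The critical values in the filled Julia set. -/
def values (T : ℂ[X]) : Set ℂ := {v : ℂ | v ∈ filled T ∧ ∃ c ∈ crit T, map T c = v}

open Pool.Agent.Zk29.Rat Pool.Agent.Zk29.Nl

theorem filled_eq {T : ℂ[X]} {R : ℝ} (hE : Esc T R) : filled T = KR T 1 (ball 0 R) :=
  (KR_filled hE).symm

/-- The bounds. -/
theorem bounds (T : ℂ[X]) (hT : 2 ≤ T.natDegree) (v : ℂ) (hv : values T = {v})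
    (hL : HasLineField T) :
    (∃ K : ℝ, ∀ n : ℕ, 2 ≤ n → ‖deriv ((map T)^[n]) v‖ ≤ Real.exp (K * Real.log n ^ 2)) ∧
    (v ∈ julia T → ∃ K : ℝ, ∀ n : ℕ, 2 ≤ n →
      Real.exp (-(K * Real.log n ^ 2)) ≤ infDist ((map T)^[n] v) (crit T)) := by
  have hP1 : 1 ≤ T.natDegree := by omega
  obtain ⟨R, hE'⟩ := exists_esc hT
  have hE := hE' R le_rfl
  have hTr := hE.trap
  have hmap : map T = fun w : ℂ => T.eval w := rfl
  have hcd : ∀ c, deriv (map T) c = (derivative T).eval c := fun c => by
    rw [hmap, T.deriv]
  have hcr : crit T = {c | (derivative T).eval c = 0} := by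
    ext c
    change deriv (map T) c = 0 ↔ _
    rw [hcd]
    rfl
  have hval : ∀ v, v ∈ values T ↔ v ∈ cvs T ∧ v ∈ KR T 1 (ball 0 R) := by
    intro v
    rw [← filled_eq hE, mem_cvs hP1]
    constructor
    · rintro ⟨h1, c, h2, h3⟩
      exact ⟨⟨c, by rw [← hcd]; exact h2, h3⟩, h1⟩
    · rintro ⟨⟨c, h2, h3⟩, h1⟩
      exact ⟨h1, c, by change deriv (map T) c = 0; rw [hcd]; exact h2, h3⟩
  have hvm : v ∈ values T := by rw [hv]; rfl
  obtain ⟨hvc, hvK⟩ := (hval v).1 hvm
  have hone : ∀ v' ∈ cvs T, v' ∈ KR T 1 (ball 0 R) → v' = v := by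
    intro v' h1 h2
    have h3 : v' ∈ values T := (hval v').2 ⟨h1, h2⟩
    rw [hv] at h3
    exact h3
  obtain ⟨c, hc, hcv⟩ := (mem_cvs hP1).1 hvc
  obtain ⟨μ, S, hLF⟩ := hL
  have hbd : ∀ z, ‖μ z‖ ≤ 1 := by
    intro z
    by_cases hz : z ∈ S
    · exact (hLF.one z hz).le
    · rw [hLF.off z hz, norm_zero]
      exact zero_le_one
  have hoff : ∀ z, z ∉ julia T → μ z = 0 := fun z hz => hLF.off z fun hzS => hz (hLF.sub hzS)
  have hcl : IsClosed (filled T) := by
    rw [filled_eq hE]
    exact hTr.kcpt.isClosed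
  have hμ : InvK T 1 (ball 0 R) μ := by
    refine ⟨⟨hLF.meas, ⟨1, hbd⟩, ?_⟩, ?_⟩
    · rw [rf_one_fun]
      exact hLF.inv
    · intro z hz
      apply hoff
      intro hzJ
      apply hz
      rw [← filled_eq hE]
      exact hcl.frontier_subset hzJ
  have hnz : ¬ ∀ z, (derivative T).eval z * cau μ z = cau μ (T.eval z) := by
    intro h0
    have h1 : ∀ᵐ z : ℂ, μ z = 0 := by
      refine rigid hP1 hE (hμ.bel hTr) ?_ h0
      intro z hz
      apply hoff
      intro hzJ
      rw [julia, filled_eq hE] at hzJ
      exact hzJ.2 hz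
    have h2 : ∀ᵐ z : ℂ, z ∉ S := by
      filter_upwards [h1] with z hz hzS
      have h3 := hLF.one z hzS
      rw [hz, norm_zero] at h3
      exact zero_ne_one h3
    rw [ae_iff] at h2
    simp only [not_not] at h2
    exact hLF.pos.ne' h2
  have hgr := growth_nl hT hE hc (by rw [hcv]; exact hvK) (by rw [hcv]; exact hone) hμ hnz
  rw [hcv] at hgr
  refine ⟨hgr, fun hvJ => ?_⟩
  rw [hcr]
  refine rec_nl hT hE hvc ?_ hone hgr
  rw [← filled_eq hE]
  exact hvJ

/-- **Invariant line fields of polynomials with one critical value in the filled Julia set.** -/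
theorem result (T : ℂ[X]) (hT : 2 ≤ T.natDegree) (v : ℂ) (hv : values T = {v}) :
    (HasLineField T →
      (∃ K : ℝ, ∀ n : ℕ, 2 ≤ n → ‖deriv ((map T)^[n]) v‖ ≤ Real.exp (K * Real.log n ^ 2)) ∧
      (v ∈ julia T → ∃ K : ℝ, ∀ n : ℕ, 2 ≤ n →
        Real.exp (-(K * Real.log n ^ 2)) ≤ infDist ((map T)^[n] v) (crit T))) ∧
    ((∃ lam : ℝ, 1 < lam ∧ ∃ᶠ n : ℕ in atTop, lam ^ n ≤ ‖deriv ((map T)^[n]) v‖) →
      ¬ HasLineField T) ∧
    ((∀ C : ℝ, ∃ᶠ n : ℕ in atTop, Real.exp (C * Real.log n ^ 2) ≤ ‖deriv ((map T)^[n]) v‖) →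
      ¬ HasLineField T) ∧
    (v ∈ julia T → (∀ C : ℝ, ∃ᶠ n : ℕ in atTop,
      infDist ((map T)^[n] v) (crit T) ≤ Real.exp (-(C * Real.log n ^ 2))) →
      ¬ HasLineField T) := by
  have hgrow : (∀ C : ℝ, ∃ᶠ n : ℕ in atTop, Real.exp (C * Real.log n ^ 2) ≤
      ‖deriv ((map T)^[n]) v‖) → ¬ HasLineField T := by
    intro h hL
    obtain ⟨⟨K, hK⟩, -⟩ := bounds T hT v hv hL
    obtain ⟨n, h1, h2⟩ := ((h (K + 1)).and_eventually (eventually_ge_atTop 2)).exists
    have h3 := h1.trans (hK n h2)
    rw [Real.exp_le_exp] at h3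
    have h4 : 0 < Real.log n := Real.log_pos (by exact_mod_cast h2)
    nlinarith [sq_nonneg (Real.log n), pow_pos h4 2]
  refine ⟨bounds T hT v hv, ?_, hgrow, ?_⟩
  · rintro ⟨lam, hlam, h⟩
    refine hgrow fun C => ?_
    have h1 : ∀ᶠ n : ℕ in atTop, Real.exp (C * Real.log n ^ 2) ≤ lam ^ n := by
      have hl : 0 < Real.log lam := Real.log_pos hlam
      have h2 : Tendsto (fun x : ℝ => Real.log x ^ 2 / x) atTop (𝓝 0) := by
        have := Real.tendsto_pow_log_div_mul_add_atTop 1 0 2 one_ne_zero
        simpa using this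
      have h3 : Tendsto (fun n : ℕ => Real.log (n : ℝ) ^ 2 / (n : ℝ)) atTop (𝓝 0) :=
        h2.comp tendsto_natCast_atTop_atTop
      have h4 : Tendsto (fun n : ℕ => C * (Real.log (n : ℝ) ^ 2 / (n : ℝ))) atTop (𝓝 0) := by
        simpa using h3.const_mul C
      filter_upwards [h4.eventually_le_const hl, eventually_ge_atTop 1] with n hn hn1
      have hn0 : (0 : ℝ) < n := by exact_mod_cast hn1
      rw [← Real.exp_log (show (0 : ℝ) < lam by linarith), ← Real.exp_nat_mul, Real.exp_le_exp]
      rw [← mul_div_assoc, div_le_iff₀ hn0] at hn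
      linarith
    exact (h.and_eventually h1).mono fun n hn => hn.2.trans hn.1
  · intro hvJ h hL
    obtain ⟨-, h5⟩ := bounds T hT v hv hL
    obtain ⟨K, hK⟩ := h5 hvJ
    obtain ⟨n, h1, h2⟩ := ((h (K + 1)).and_eventually (eventually_ge_atTop 2)).exists
    have h3 := (hK n h2).trans h1
    rw [Real.exp_le_exp] at h3
    have h4 : 0 < Real.log n := Real.log_pos (by exact_mod_cast h2)
    nlinarith [sq_nonneg (Real.log n), pow_pos h4 2]

end Pool.Agent.Results.MP_70a088_an.OneCriticalValue
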